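import Mathlib
import Pool.Agent.Y754.FR.Win

/-!
# The supremum of the real parts of the zeros of zeta and Farey fractions in short intervals

Let `Θ` be the supremum of the real parts of the zeros of zeta in the critical strip, `A(n)` the
number and `f_1 < f_2 < ...` the Farey fractions of order `n` in `(0, 1]`, and `S(a, b, n)` the sum
of `|f_j - j / A(n)|` over the `f_j` in `(a, b)`.

* For every interval `(a, b)` that meets `(0, 1)`, `log S / log n → Θ`.
* In the windows `(p/q, p/q + κ n^(-c))`, `0 ≤ c < 1`, at a rational number, `log S / log n` tends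
  to `(1 - c) Θ`; at every real number `S ≤ n^((1 - c) Θ + ε)` for all large `n`.
* So there is a zero-free half-plane if and only if, in one interval or in one family of shrinking
  windows at a rational number, the sum is smaller by a power than the trivial bound, for one
  sequence of `n`.

The statement for fixed intervals and the lower bounds are theorems of the library
`Pool.Agent.H295R2`; the upper bound in short windows is `Pool.Agent.Y754.FR`.
-/

set_option autoImplicit false

namespace Pool.Agent.Results.MP_5a4862_nt.LocalFareySums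

open Filter Topology

/-- the Farey fractions of order `n`: the rational numbers in `(0, 1]` with denominator at most
`n` -/
def farey (n : ℕ) : Finset ℚ :=
  ((Finset.Icc 1 n ×ˢ Finset.Icc 1 n).image (fun p : ℕ × ℕ => (p.1 : ℚ) / (p.2 : ℚ))).filter
    (fun q : ℚ => q ≤ 1)

/-- the Farey fractions of order `n` in increasing order; the first one is `nth n 0` -/
noncomputable def nth (n : ℕ) (j : Fin (farey n).card) : ℝ :=
  (((farey n).orderEmbOfFin rfl j : ℚ) : ℝ)

/-- the sum of the distances between the `j`-th Farey fraction `f_j` and `j / A(n)`, over the `j`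
with `a < f_j < b` -/
noncomputable def S (a b : ℝ) (n : ℕ) : ℝ :=
  ∑ j : Fin (farey n).card, if a < nth n j ∧ nth n j < b then
    |nth n j - ((j : ℕ) + 1 : ℝ) / ((farey n).card : ℝ)| else 0

/-- the supremum of the real parts of the zeros of the zeta function in the critical strip -/
noncomputable def Theta : ℝ :=
  sSup (Complex.re '' {s : ℂ | riemannZeta s = 0 ∧ 0 < s.re ∧ s.re < 1})

/-- `ζ(s) ≠ 0` in a half-plane `Re s ≥ σ₀`, `1/2 < σ₀ < 1` -/
def HalfPlane : Prop :=
  ∃ σ₀ : ℝ, 1 / 2 < σ₀ ∧ σ₀ < 1 ∧ ∀ s : ℂ, σ₀ ≤ s.re → riemannZeta s ≠ 0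

lemma halfPlane_iff : HalfPlane ↔ Theta < 1 := by
  constructor
  · rintro ⟨σ₀, h0, h1, h⟩
    refine lt_of_le_of_lt ?_ h1
    refine csSup_le Pool.Agent.H295R2.zset_nonempty ?_
    rintro x ⟨s, hs, rfl⟩
    by_contra hc
    exact h s (not_le.1 hc).le hs.1
  · intro h
    have h2 : 1 / 2 ≤ Theta := Pool.Agent.H295R2.half_le_zetaSup
    refine ⟨(Theta + 1) / 2, by linarith, by linarith, fun s hs hz => ?_⟩
    rcases le_or_gt 1 s.re with h1 | h1
    · exact riemannZeta_ne_zero_of_one_le_re h1 hz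
    · have h3 : s.re ≤ Theta :=
        le_csSup Pool.Agent.H295R2.zset_bdd ⟨s, ⟨hz, by linarith, h1⟩, rfl⟩
      linarith

/-- from a limit of `log S / log n` -/
lemma lower_of_lim {F : ℕ → ℝ} {a : ℝ} (ha : 0 < a)
    (h : Tendsto (fun n : ℕ => Real.log (F n) / Real.log n) atTop (𝓝 a)) {b : ℝ}
    (hf : ∃ᶠ n : ℕ in atTop, F n ≤ (n : ℝ) ^ b) (hF : ∀ n, 0 ≤ F n) : a ≤ b := by
  refine le_of_forall_pos_le_add fun ε hε => ?_
  have h1 := h.eventually (lt_mem_nhds (show a - min ε (a / 2) < a by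
    have : 0 < min ε (a / 2) := lt_min hε (by linarith)
    linarith))
  obtain ⟨n, h2, h3, h4⟩ := (hf.and_eventually (h1.and (eventually_ge_atTop 2))).exists
  have hn : (1 : ℝ) < n := by
    have : (2 : ℝ) ≤ n := by exact_mod_cast h4
    linarith
  have hlog : 0 < Real.log n := Real.log_pos hn
  have hm : min ε (a / 2) ≤ a / 2 := min_le_right _ _
  have h5 : 0 < Real.log (F n) / Real.log n := by linarith
  have h6 : 0 < F n := by
    rcases (hF n).lt_or_eq with h | h
    · exact h
    · rw [← h] at h5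
      simp at h5
  have h7 : Real.log (F n) ≤ b * Real.log n := by
    have := Real.log_le_log h6 h2
    rwa [Real.log_rpow (by linarith)] at this
  have h8 : Real.log (F n) / Real.log n ≤ b := by rwa [div_le_iff₀ hlog]
  have hm2 : min ε (a / 2) ≤ ε := min_le_left _ _
  linarith

lemma S_nonneg (a b : ℝ) (n : ℕ) : 0 ≤ S a b n := Pool.Agent.H295R2.localSum_nonneg a b n

lemma upper_of_lim {F : ℕ → ℝ} {a : ℝ}
    (h : Tendsto (fun n : ℕ => Real.log (F n) / Real.log n) atTop (𝓝 a)) {b : ℝ}
    (hab : a < b) (hF : ∀ n, 0 ≤ F n) : ∀ᶠ n : ℕ in atTop, F n ≤ (n : ℝ) ^ b := by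
  filter_upwards [h.eventually (gt_mem_nhds hab), eventually_ge_atTop 2] with n h1 h2
  have hn : (1 : ℝ) < n := by
    have : (2 : ℝ) ≤ n := by exact_mod_cast h2
    linarith
  have hlog : 0 < Real.log n := Real.log_pos hn
  rcases (hF n).lt_or_eq with h3 | h3
  · rw [div_lt_iff₀ hlog] at h1
    rw [← Real.exp_log h3, Real.rpow_def_of_pos (by linarith)]
    apply Real.exp_le_exp.2
    linarith
  · rw [← h3]
    positivity

/-- **Theorem.** (1) In every interval that meets `(0, 1)` the exponent of the sum of the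
`|f_j - j / A(n)|` converges to `Θ`. (2) In the windows `(p/q, p/q + κ n^(-c))` it converges to
`(1 - c) Θ`. (3) In the windows at any real number it is at most `(1 - c) Θ + ε` for large `n`.
(4) There is a zero-free half-plane if and only if for some `δ > 0` the sums over one interval are
at most `n^(1-δ)` for infinitely many `n`; then `Θ ≤ 1 - δ`. (5) The same for the windows at one
rational number, with the exponent `(1 - c) (1 - δ)`. (6) `Θ = 1/2` if and only if for all `ε > 0`
there are infinitely many `n` with a sum at most `n^((1-c)/2+ε)` over the window. -/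
theorem result :
    (∀ a b : ℝ, a < b → a < 1 → 0 < b →
      Tendsto (fun n : ℕ => Real.log (S a b n) / Real.log n) atTop (𝓝 Theta)) ∧
    (∀ p q : ℕ, p < q → Nat.Coprime p q → ∀ c κ : ℝ, 0 ≤ c → c < 1 → 0 < κ →
      Tendsto (fun n : ℕ => Real.log (S (p / q) (p / q + κ * (n : ℝ) ^ (-c)) n) / Real.log n)
        atTop (𝓝 ((1 - c) * Theta))) ∧
    (∀ x c κ : ℝ, 0 ≤ c → c < 1 → 0 < κ → ∀ ε : ℝ, 0 < ε → ∀ᶠ n : ℕ in atTop,
      S x (x + κ * (n : ℝ) ^ (-c)) n ≤ (n : ℝ) ^ ((1 - c) * Theta + ε)) ∧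
    (∀ a b : ℝ, a < b → a < 1 → 0 < b →
      (HalfPlane ↔ ∃ δ : ℝ, 0 < δ ∧ ∃ᶠ n : ℕ in atTop, S a b n ≤ (n : ℝ) ^ (1 - δ)) ∧
      ∀ δ : ℝ, (∃ᶠ n : ℕ in atTop, S a b n ≤ (n : ℝ) ^ (1 - δ)) → Theta ≤ 1 - δ) ∧
    (∀ p q : ℕ, p < q → Nat.Coprime p q → ∀ c κ : ℝ, 0 ≤ c → c < 1 → 0 < κ →
      (HalfPlane ↔ ∃ δ : ℝ, 0 < δ ∧ ∃ᶠ n : ℕ in atTop,
        S (p / q) (p / q + κ * (n : ℝ) ^ (-c)) n ≤ (n : ℝ) ^ ((1 - c) * (1 - δ))) ∧
      ∀ δ : ℝ, (∃ᶠ n : ℕ in atTop,
        S (p / q) (p / q + κ * (n : ℝ) ^ (-c)) n ≤ (n : ℝ) ^ ((1 - c) * (1 - δ))) →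
        Theta ≤ 1 - δ) ∧
    (∀ p q : ℕ, p < q → Nat.Coprime p q → ∀ c κ : ℝ, 0 ≤ c → c < 1 → 0 < κ →
      (Theta = 1 / 2 ↔ ∀ ε : ℝ, 0 < ε → ∃ᶠ n : ℕ in atTop,
        S (p / q) (p / q + κ * (n : ℝ) ^ (-c)) n ≤ (n : ℝ) ^ ((1 - c) / 2 + ε))) := by
  have hΘ : 1 / 2 ≤ Theta := Pool.Agent.H295R2.half_le_zetaSup
  have h1 : ∀ a b : ℝ, a < b → a < 1 → 0 < b →
      Tendsto (fun n : ℕ => Real.log (S a b n) / Real.log n) atTop (𝓝 Theta) :=
    fun a b hab ha hb => Pool.Agent.H295R2.limit_theorem hab ha hb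
  have h2 : ∀ p q : ℕ, p < q → Nat.Coprime p q → ∀ c κ : ℝ, 0 ≤ c → c < 1 → 0 < κ →
      Tendsto (fun n : ℕ => Real.log (S (p / q) (p / q + κ * (n : ℝ) ^ (-c)) n) / Real.log n)
        atTop (𝓝 ((1 - c) * Theta)) :=
    fun p q hpq hco c κ hc hc1 hκ => Pool.Agent.Y754.FR.window_lim hpq hco hc hc1 hκ
  have h3 : ∀ a b : ℝ, a < b → a < 1 → 0 < b → ∀ δ : ℝ,
      (∃ᶠ n : ℕ in atTop, S a b n ≤ (n : ℝ) ^ (1 - δ)) → Theta ≤ 1 - δ :=
    fun a b hab ha hb δ hf => lower_of_lim (by linarith) (h1 a b hab ha hb) hf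
      (fun n => S_nonneg a b n)
  have h4 : ∀ p q : ℕ, p < q → Nat.Coprime p q → ∀ c κ : ℝ, 0 ≤ c → c < 1 → 0 < κ → ∀ δ : ℝ,
      (∃ᶠ n : ℕ in atTop,
        S (p / q) (p / q + κ * (n : ℝ) ^ (-c)) n ≤ (n : ℝ) ^ ((1 - c) * (1 - δ))) →
        Theta ≤ 1 - δ := by
    intro p q hpq hco c κ hc hc1 hκ δ hf
    have h5 := lower_of_lim (mul_pos (by linarith) (by linarith)) (h2 p q hpq hco c κ hc hc1 hκ) hf
      (fun n => S_nonneg _ _ n)
    exact le_of_mul_le_mul_left h5 (by linarith)
  refine ⟨h1, h2, fun x c κ hc hc1 hκ ε hε => Pool.Agent.Y754.FR.window_up x hc hc1 hκ hε,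
    fun a b hab ha hb => ⟨?_, h3 a b hab ha hb⟩,
    fun p q hpq hco c κ hc hc1 hκ => ⟨?_, h4 p q hpq hco c κ hc hc1 hκ⟩, ?_⟩
  · rw [halfPlane_iff]
    constructor
    · intro h
      exact ⟨(1 - Theta) / 2, by linarith,
        (upper_of_lim (h1 a b hab ha hb) (by linarith) (fun n => S_nonneg a b n)).frequently⟩
    · rintro ⟨δ, hδ, hf⟩
      have := h3 a b hab ha hb δ hf
      linarith
  · rw [halfPlane_iff]
    constructor
    · intro h
      refine ⟨(1 - Theta) / 2, by linarith,
        (upper_of_lim (h2 p q hpq hco c κ hc hc1 hκ) ?_ (fun n => S_nonneg _ _ n)).frequently⟩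
      exact mul_lt_mul_of_pos_left (by linarith) (by linarith)
    · rintro ⟨δ, hδ, hf⟩
      have := h4 p q hpq hco c κ hc hc1 hκ δ hf
      linarith
  · intro p q hpq hco c κ hc hc1 hκ
    constructor
    · intro h ε hε
      refine (upper_of_lim (h2 p q hpq hco c κ hc hc1 hκ) ?_ (fun n => S_nonneg _ _ n)).frequently
      rw [h]
      linarith
    · intro h
      refine le_antisymm ?_ hΘ
      have h5 : (1 - c) * Theta ≤ (1 - c) * (1 / 2) := by
        refine le_of_forall_pos_le_add fun ε hε => ?_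
        have h6 := lower_of_lim (mul_pos (by linarith) (by linarith))
          (h2 p q hpq hco c κ hc hc1 hκ) (h ε hε) (fun n => S_nonneg _ _ n)
        linarith
      exact le_of_mul_le_mul_left h5 (by linarith)

end Pool.Agent.Results.MP_5a4862_nt.LocalFareySums

/- claim file:
Proves: Let Theta be the supremum of the real parts of the zeros of zeta in 0 < Re s < 1, f_1 < ... < f_A the rationals in (0,1] with denominator at most n, A = A(n), and S(a,b,n) the sum of |f_j - j/A| over a < f_j < b. (1) For every interval (a,b) meeting (0,1), log S(a,b,n)/log n tends to Theta. (2) For coprime 0 <= p < q, 0 <= c < 1, k > 0 and the windows (p/q, p/q + k n^-c), log S/log n tends to (1-c)Theta; in windows (x, x + k n^-c) at any real x, S <= n^((1-c)Theta+eps) for large n. (3) zeta has no zeros in some half-plane Re s >= s0, 1/2 < s0 < 1, iff S(a,b,n) <= n^(1-d) for some d > 0 and infinitely many n (for any one interval as in (1)), and iff S <= n^((1-c)(1-d)) for some d > 0 and infinitely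 many n in one family of windows as in (2); then Theta <= 1-d. (4) Theta = 1/2 iff for all eps > 0, S <= n^((1-c)/2+eps) for infinitely many n in one such family.
Definitions: farey n: the fractions; nth n j: the (j+1)-st of them; S: the sum; Theta: the supremum; HalfPlane: the statement of Q1.
Relation: Equivalent forms of Q1 with arbitrarily short windows and arbitrarily sparse n, and a formula for Theta as a limit. Classical (Franel, Landau 1924): RH iff S(0,1,n) = O(n^(1/2+eps)); for initial intervals [0,a/b] with special a/b see Kanemitsu-Yoshimoto. The restriction to an arbitrary fixed or shrinking interval, and the lower bound for every large n, seem to be new.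
-/
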